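import Pool.Agent.V8H69.TD.Defs

/-!
# Soundness of the cycle length test
-/

set_option autoImplicit false

namespace Pool.Agent.V8H40.TD

open Equiv Function Pool.Agent.V8H69.TD

/-- the length of the cycle of `z` -/
noncomputable abbrev per (g : Perm (Fin 14)) (z : Fin 14) : ℕ := minimalPeriod g z

theorem mem_per (g : Perm (Fin 14)) (z : Fin 14) : z ∈ periodicPts g := by
  refine ⟨orderOf g, orderOf_pos g, ?_⟩
  show g^[orderOf g] z = z
  rw [Perm.iterate_eq_pow, pow_orderOf_eq_one]
  rfl

theorem per_pos (g : Perm (Fin 14)) (z : Fin 14) : 0 < per g z :=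
  minimalPeriod_pos_iff_mem_periodicPts.2 (mem_per g z)

theorem per_le (g : Perm (Fin 14)) (z : Fin 14) : per g z ≤ 14 := by
  have := minimalPeriod_le_card (f := g) (x := z)
  simpa using this

theorem pow_eq_iff (g : Perm (Fin 14)) (z : Fin 14) (n : ℕ) : (g ^ n) z = z ↔ per g z ∣ n := by
  rw [← Perm.iterate_eq_pow]
  exact isPeriodicPt_iff_minimalPeriod_dvd

theorem same_iff (g : Perm (Fin 14)) (s z : Fin 14) :
    g.SameCycle s z ↔ ∃ i < per g s, (g ^ i) s = z := by
  constructor
  · intro h
    obtain ⟨i, hi⟩ := h.exists_nat_pow_eq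
    refine ⟨i % per g s, Nat.mod_lt _ (per_pos g s), ?_⟩
    rw [← hi, ← Perm.iterate_eq_pow, ← Perm.iterate_eq_pow]
    exact iterate_mod_minimalPeriod_eq
  · rintro ⟨i, -, hi⟩
    exact ⟨i, by rw [zpow_natCast]; exact hi⟩

theorem per_same (g : Perm (Fin 14)) {s z : Fin 14} (h : g.SameCycle s z) : per g z = per g s := by
  obtain ⟨i, hi⟩ := h.exists_nat_pow_eq
  rw [← hi, ← Perm.iterate_eq_pow]
  exact minimalPeriod_apply_iterate (mem_per g s) i

open Classical in
theorem card_cycle (g : Perm (Fin 14)) (s : Fin 14) :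
    (Finset.univ.filter fun z => g.SameCycle s z).card = per g s := by
  have e : (Finset.univ.filter fun z => g.SameCycle s z) =
      (Finset.range (per g s)).image (fun i => g^[i] s) := by
    ext z
    simp only [Finset.mem_filter, Finset.mem_univ, true_and, Finset.mem_image, Finset.mem_range,
      same_iff, Perm.iterate_eq_pow]
  rw [e, Finset.card_image_of_injOn]
  · simp
  · intro a ha b hb hab
    exact iterate_injOn_Iio_minimalPeriod (by simpa using ha) (by simpa using hb) hab

theorem trav_sound (g : Perm (Fin 14)) (nx : ℕ → ℕ) (h : ∀ z : Fin 14, nx z = (g z : ℕ))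
    (s : Fin 14) (k : ℕ → ℕ → Bool) (m : Fin 14 → Prop) : ∀ f len mask : ℕ, 1 ≤ len → len ≤ per g s →
    (∀ z : Fin 14, mask.testBit z = true ↔ m z ∨ ∃ i < len, (g ^ i) s = z) →
    trav nx s f (((g ^ len) s : Fin 14) : ℕ) mask len k = true →
    ∃ mask' : ℕ, (∀ z : Fin 14, mask'.testBit z = true ↔ m z ∨ g.SameCycle s z) ∧
      k mask' (per g s) = true := by
  intro f
  induction f with
  | zero =>
    intro len mask _ _ _ h0
    exact absurd h0 (by simp [trav])
  | succ f ih =>
    intro len mask h1 h2 hm ht
    have e : trav nx s (f + 1) (((g ^ len) s : Fin 14) : ℕ) mask len k =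
        cond (Nat.beq (((g ^ len) s : Fin 14) : ℕ) s) (k mask len)
          (trav nx s f (nx (((g ^ len) s : Fin 14) : ℕ))
            (Nat.lor mask (Nat.shiftLeft 1 (((g ^ len) s : Fin 14) : ℕ))) (Nat.succ len) k) := rfl
    rw [e] at ht
    by_cases hs : (g ^ len) s = s
    · have hd : per g s ∣ len := (pow_eq_iff g s len).1 hs
      have hlen : len = per g s := le_antisymm h2 (Nat.le_of_dvd (by omega) hd)
      rw [hs] at ht
      have hb : Nat.beq (s : ℕ) s = true := Nat.beq_refl _
      rw [hb, cond_true] at ht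
      refine ⟨mask, ?_, ?_⟩
      · intro z
        rw [hm z, same_iff, hlen]
      · rw [← hlen]; exact ht
    · have hb : Nat.beq (((g ^ len) s : Fin 14) : ℕ) s = false := by
        rw [Bool.eq_false_iff]
        intro hb
        apply hs
        exact Fin.ext (Nat.eq_of_beq_eq_true hb)
      rw [hb, cond_false, h] at ht
      have hstep : g ((g ^ len) s) = (g ^ (len + 1)) s := by
        rw [pow_succ']; rfl
      rw [hstep] at ht
      apply ih (len + 1) _ (by omega) _ _ ht
      · by_contra hc
        have : len = per g s := by omega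
        apply hs
        rw [pow_eq_iff, this]
      · intro z
        have e1 : Nat.lor mask (Nat.shiftLeft 1 (((g ^ len) s : Fin 14) : ℕ)) =
            mask ||| (1 <<< (((g ^ len) s : Fin 14) : ℕ)) := rfl
        rw [e1, Nat.testBit_or, Bool.or_eq_true, hm z, Nat.one_shiftLeft, Nat.testBit_two_pow,
          decide_eq_true_eq]
        constructor
        · rintro ((h' | ⟨i, hi, h'⟩) | h')
          · exact Or.inl h'
          · exact Or.inr ⟨i, by omega, h'⟩
          · right
            exact ⟨len, by omega, Fin.ext h'⟩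
        · rintro (h' | ⟨i, hi, h'⟩)
          · exact Or.inl (Or.inl h')
          · rcases Nat.lt_succ_iff_lt_or_eq.1 hi with h3 | h3
            · exact Or.inl (Or.inr ⟨i, h3, h'⟩)
            · right
              rw [← h', h3]

open Classical in
/-- the seen points whose cycle length is divisible by `q` -/
noncomputable def Q (g : Perm (Fin 14)) (q s : ℕ) : Finset (Fin 14) :=
  Finset.univ.filter fun z => (∃ j : Fin 14, j.val < s ∧ g.SameCycle j z) ∧ q ∣ per g z

theorem Q_same (g : Perm (Fin 14)) (q : ℕ) (s : Fin 14) (h : ∃ j : Fin 14, j.val < s.val ∧ g.SameCycle j s) :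
    Q g q (s.val + 1) = Q g q s.val := by
  ext z
  simp only [Q, Finset.mem_filter, Finset.mem_univ, true_and]
  refine and_congr_left fun _ => ?_
  constructor
  · rintro ⟨j, hj, hjz⟩
    rcases Nat.lt_succ_iff_lt_or_eq.1 hj with h1 | h1
    · exact ⟨j, h1, hjz⟩
    · obtain ⟨j', hj', h2⟩ := h
      have : j = s := Fin.ext h1
      subst this
      exact ⟨j', hj', h2.trans hjz⟩
  · rintro ⟨j, hj, hjz⟩
    exact ⟨j, by omega, hjz⟩

theorem Q_new (g : Perm (Fin 14)) (q : ℕ) (s : Fin 14)
    (h : ¬ ∃ j : Fin 14, j.val < s.val ∧ g.SameCycle j s) :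
    (Q g q (s.val + 1)).card = if per g s % q = 0 then (Q g q s.val).card + per g s else (Q g q s.val).card := by
  classical
  split_ifs with hq
  · have hq' : q ∣ per g s := Nat.dvd_of_mod_eq_zero hq
    rw [← card_cycle g s, ← Finset.card_union_of_disjoint]
    · congr 1
      ext z
      simp only [Q, Finset.mem_filter, Finset.mem_univ, true_and, Finset.mem_union]
      constructor
      · rintro ⟨⟨j, hj, hjz⟩, hz⟩
        rcases Nat.lt_succ_iff_lt_or_eq.1 hj with h1 | h1
        · exact Or.inl ⟨⟨j, h1, hjz⟩, hz⟩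
        · have : j = s := Fin.ext h1
          subst this
          exact Or.inr hjz
      · rintro (⟨⟨j, hj, hjz⟩, hz⟩ | h')
        · exact ⟨⟨j, by omega, hjz⟩, hz⟩
        · exact ⟨⟨s, by omega, h'⟩, by rw [per_same g h']; exact hq'⟩
    · rw [Finset.disjoint_left]
      intro z hz hz'
      simp only [Q, Finset.mem_filter, Finset.mem_univ, true_and] at hz hz'
      obtain ⟨⟨j, hj, hjz⟩, -⟩ := hz
      exact h ⟨j, hj, hjz.trans hz'.symm⟩
  · congr 1
    ext z
    simp only [Q, Finset.mem_filter, Finset.mem_univ, true_and]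
    constructor
    · rintro ⟨⟨j, hj, hjz⟩, hz⟩
      refine ⟨?_, hz⟩
      rcases Nat.lt_succ_iff_lt_or_eq.1 hj with h1 | h1
      · exact ⟨j, h1, hjz⟩
      · exfalso
        have : j = s := Fin.ext h1
        subst this
        apply hq
        rw [per_same g hjz] at hz
        exact Nat.mod_eq_zero_of_dvd hz
    · rintro ⟨⟨j, hj, hjz⟩, hz⟩
      exact ⟨⟨j, by omega, hjz⟩, hz⟩

theorem cyc_sound (g : Perm (Fin 14)) (nx : ℕ → ℕ) (h : ∀ z : Fin 14, nx z = (g z : ℕ)) :
    ∀ f s mask : ℕ, s + f = 14 →
    (∀ z : Fin 14, mask.testBit z = true ↔ ∃ j : Fin 14, j.val < s ∧ g.SameCycle j z) →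
    cyc nx f s mask (Q g 3 s).card (Q g 5 s).card (Q g 7 s).card = true →
    (Q g 3 14).card = 3 ∨ (Q g 5 14).card = 5 ∨ (Q g 7 14).card = 7 := by
  intro f
  induction f with
  | zero =>
    intro s mask hs _ ht
    have hs' : s = 14 := by omega
    subst hs'
    have e : cyc nx 0 14 mask (Q g 3 14).card (Q g 5 14).card (Q g 7 14).card =
        cond (Nat.beq (Q g 3 14).card 3) true (cond (Nat.beq (Q g 5 14).card 5) true
          (Nat.beq (Q g 7 14).card 7)) := rfl
    rw [e] at ht
    by_cases h3 : Nat.beq (Q g 3 14).card 3 = true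
    · exact Or.inl (Nat.eq_of_beq_eq_true h3)
    · rw [Bool.not_eq_true] at h3
      rw [h3, cond_false] at ht
      by_cases h5 : Nat.beq (Q g 5 14).card 5 = true
      · exact Or.inr (Or.inl (Nat.eq_of_beq_eq_true h5))
      · rw [Bool.not_eq_true] at h5
        rw [h5, cond_false] at ht
        exact Or.inr (Or.inr (Nat.eq_of_beq_eq_true ht))
  | succ f ih =>
    intro s mask hs hm ht
    have hs14 : s < 14 := by omega
    set s' : Fin 14 := ⟨s, hs14⟩ with hs'
    have e : cyc nx (f + 1) s mask (Q g 3 s).card (Q g 5 s).card (Q g 7 s).card =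
        cond (Nat.testBit mask s) (cyc nx f (Nat.succ s) mask (Q g 3 s).card (Q g 5 s).card (Q g 7 s).card)
          (trav nx s 14 (nx s) (Nat.lor mask (Nat.shiftLeft 1 s)) 1 (fun mask' len =>
            cyc nx f (Nat.succ s) mask' (cond (Nat.beq (Nat.mod len 3) 0) (Nat.add (Q g 3 s).card len) (Q g 3 s).card)
              (cond (Nat.beq (Nat.mod len 5) 0) (Nat.add (Q g 5 s).card len) (Q g 5 s).card)
              (cond (Nat.beq (Nat.mod len 7) 0) (Nat.add (Q g 7 s).card len) (Q g 7 s).card))) := rfl
    rw [e] at ht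
    by_cases hb : Nat.testBit mask s = true
    · rw [hb, cond_true] at ht
      have hseen : ∃ j : Fin 14, j.val < s'.val ∧ g.SameCycle j s' := (hm s').1 hb
      have q3 := Q_same g 3 s' hseen
      have q5 := Q_same g 5 s' hseen
      have q7 := Q_same g 7 s' hseen
      simp only [hs'] at q3 q5 q7
      rw [← q3, ← q5, ← q7] at ht
      apply ih (s + 1) mask (by omega) _ ht
      intro z
      rw [hm z]
      constructor
      · rintro ⟨j, hj, hjz⟩
        exact ⟨j, by omega, hjz⟩
      · rintro ⟨j, hj, hjz⟩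
        rcases Nat.lt_succ_iff_lt_or_eq.1 hj with h1 | h1
        · exact ⟨j, h1, hjz⟩
        · obtain ⟨j', hj', h2⟩ := hseen
          have : j = s' := Fin.ext h1
          subst this
          exact ⟨j', hj', h2.trans hjz⟩
    · have hnot : ¬ ∃ j : Fin 14, j.val < s'.val ∧ g.SameCycle j s' := fun hh => hb ((hm s').2 hh)
      rw [Bool.not_eq_true] at hb
      rw [hb, cond_false] at ht
      have e2 : nx s = (((g ^ 1) s' : Fin 14) : ℕ) := by
        rw [pow_one]
        exact h s'
      rw [e2] at ht
      obtain ⟨mask', hm', hk⟩ := trav_sound g nx h s' _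
        (fun z => ∃ j : Fin 14, j.val < s ∧ g.SameCycle j z) 14 1 _ le_rfl (per_pos g s') (by
          intro z
          have e1 : Nat.lor mask (Nat.shiftLeft 1 s) = mask ||| (1 <<< s) := rfl
          rw [e1, Nat.testBit_or, Bool.or_eq_true, hm z, Nat.one_shiftLeft, Nat.testBit_two_pow,
            decide_eq_true_eq]
          constructor
          · rintro (h' | h')
            · exact Or.inl h'
            · right
              exact ⟨0, by omega, Fin.ext h'⟩
          · rintro (h' | ⟨i, hi, h'⟩)
            · exact Or.inl h'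
            · right
              have : i = 0 := by omega
              subst this
              rw [← h']
              simp [hs']) ht
      have q3 := Q_new g 3 s' hnot
      have q5 := Q_new g 5 s' hnot
      have q7 := Q_new g 7 s' hnot
      have aux : ∀ q n L : ℕ, (cond (Nat.beq (Nat.mod L q) 0) (Nat.add n L) n) =
          if L % q = 0 then n + L else n := by
        intro q n L
        by_cases hq : L % q = 0
        · have : Nat.beq (Nat.mod L q) 0 = true := by
            have : Nat.mod L q = 0 := hq
            rw [this]; rfl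
          rw [this, cond_true, if_pos hq]
          rfl
        · have : Nat.beq (Nat.mod L q) 0 = false := by
            rw [Bool.eq_false_iff]
            intro hb'
            exact hq (Nat.eq_of_beq_eq_true hb')
          rw [this, cond_false, if_neg hq]
      rw [aux, aux, aux] at hk
      simp only [hs'] at q3 q5 q7
      rw [← q3, ← q5, ← q7] at hk
      apply ih (s + 1) mask' (by omega) _ hk
      intro z
      rw [hm' z]
      constructor
      · rintro (⟨j, hj, hjz⟩ | h')
        · exact ⟨j, by omega, hjz⟩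
        · exact ⟨s', by simp [hs'], h'⟩
      · rintro ⟨j, hj, hjz⟩
        rcases Nat.lt_succ_iff_lt_or_eq.1 hj with h1 | h1
        · exact Or.inl ⟨j, h1, hjz⟩
        · right
          have : j = s' := Fin.ext h1
          subst this
          exact hjz

theorem final (g : Perm (Fin 14)) (q N : ℕ) (hq : q.Prime) (hQ : (Q g q 14).card = q)
    (hN : ∀ L : ℕ, 0 < L → L ≤ 14 → ¬ q ∣ L → L ∣ N) (hqN : ¬ q ∣ N) : (g ^ N).cycleType = {q} := by
  classical
  have hmem : ∀ z, z ∈ Q g q 14 ↔ q ∣ per g z := by
    intro z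
    simp only [Q, Finset.mem_filter, Finset.mem_univ, true_and]
    exact ⟨fun h => h.2, fun h => ⟨⟨z, z.2, Perm.SameCycle.refl _ _⟩, h⟩⟩
  have hper : ∀ z, q ∣ per g z → per g z = q := by
    intro z hz
    apply le_antisymm _ (Nat.le_of_dvd (per_pos g z) hz)
    rw [← hQ, ← card_cycle g z]
    apply Finset.card_le_card
    intro w hw
    rw [Finset.mem_filter] at hw
    rw [hmem, per_same g hw.2]
    exact hz
  have hsup : (g ^ N).support = Q g q 14 := by
    ext z
    rw [Perm.mem_support, hmem, Ne, pow_eq_iff]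
    constructor
    · intro h
      by_contra hc
      exact h (hN _ (per_pos g z) (per_le g z) hc)
    · intro h
      rw [hper z h]
      exact hqN
  have hne : g ^ N ≠ 1 := by
    intro h
    rw [h, Perm.support_one] at hsup
    rw [← hsup] at hQ
    exact hq.ne_zero (by simpa using hQ.symm)
  have hpow : (g ^ N) ^ q = 1 := by
    ext z
    rw [← pow_mul]
    have : (g ^ (N * q)) z = z := by
      rw [pow_eq_iff]
      by_cases h : q ∣ per g z
      · rw [hper z h]; exact dvd_mul_left _ _
      · exact (hN _ (per_pos g z) (per_le g z) h).mul_right _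
    rw [this]
    rfl
  have : Fact q.Prime := ⟨hq⟩
  have hord : orderOf (g ^ N) = q := orderOf_eq_prime hpow hne
  obtain ⟨n, hn⟩ := Perm.cycleType_prime_order (by rw [hord]; exact hq)
  have hsum := Perm.sum_cycleType (g ^ N)
  rw [hn, hsup, hQ, hord, Multiset.sum_replicate, smul_eq_mul] at hsum
  have : n = 0 := by
    have h1 : (n + 1) * q = 1 * q := by rw [hsum, one_mul]
    have := Nat.eq_of_mul_eq_mul_right hq.pos h1
    omega
  rw [hn, hord, this]
  rfl

/-- (P2) -/
theorem p2 : P2 := by
  intro g nx h ht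
  have key := cyc_sound g nx h 14 0 0 rfl (by
    intro z
    simp) (by
    have e : ∀ q, (Q g q 0).card = 0 := by
      intro q
      rw [Finset.card_eq_zero]
      ext z
      simp [Q]
    rw [e, e, e]
    exact ht)
  rcases key with h3 | h5 | h7
  · refine ⟨40040, 3, by norm_num, by norm_num, final g 3 40040 (by norm_num) h3 ?_ (by norm_num)⟩
    have hd : ∀ L ∈ Finset.range 15, 0 < L → ¬ 3 ∣ L → L ∣ 40040 := by decide
    intro L h0 h1 h2
    exact hd L (Finset.mem_range.2 (by omega)) h0 h2
  · refine ⟨72072, 5, by norm_num, by norm_num, final g 5 72072 (by norm_num) h5 ?_ (by norm_num)⟩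
    have hd : ∀ L ∈ Finset.range 15, 0 < L → ¬ 5 ∣ L → L ∣ 72072 := by decide
    intro L h0 h1 h2
    exact hd L (Finset.mem_range.2 (by omega)) h0 h2
  · refine ⟨51480, 7, by norm_num, by norm_num, final g 7 51480 (by norm_num) h7 ?_ (by norm_num)⟩
    have hd : ∀ L ∈ Finset.range 15, 0 < L → ¬ 7 ∣ L → L ∣ 51480 := by decide
    intro L h0 h1 h2
    exact hd L (Finset.mem_range.2 (by omega)) h0 h2

end Pool.Agent.V8H40.TD
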